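import Pool.Agent.H96.Cval

set_option autoImplicit false
open Filter Topology MeasureTheory Set

namespace Pool.Agent.Results.MP_61d686_an.Counter

/-- subsums of the series that use only indices in `P` -/
def E (x : ℕ → ℝ) (P : Set ℕ) : Set ℝ := {s | ∃ B ⊆ P, s = ∑' n, B.indicator x n}

/-- Cantorvals -/
def Cantorval (K : Set ℝ) : Prop :=
  K.Nonempty ∧ IsCompact K ∧ closure (interior K) = K ∧
    ∀ p ∈ K, (connectedComponentIn K p).Nontrivial →
      sInf (connectedComponentIn K p) ∈ closure {y ∈ K | connectedComponentIn K y = {y}} ∧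
      sSup (connectedComponentIn K p) ∈ closure {y ∈ K | connectedComponentIn K y = {y}}

/-- minimal representations -/
def Minimal (x : ℕ → ℝ) : Prop := ∀ A : Set ℕ, A.Infinite → IsEmpty (E x Aᶜ ≃ₜ E x univ)

open Pool.Agent.H96.Achv Pool.Agent.H96.Cval

theorem E_eq (x : ℕ → ℝ) (P : Set ℕ) : E x P = Ach (P.indicator x) := by
  ext s
  constructor
  · rintro ⟨B, hB, rfl⟩
    exact ⟨B, by rw [indicator_indicator, inter_eq_left.mpr hB]⟩
  · rintro ⟨B, rfl⟩
    exact ⟨B ∩ P, inter_subset_right, by rw [indicator_indicator]⟩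

noncomputable def xs : ℕ → ℝ := mg 3 (fun i => 6 - i) (1 / 8)

theorem xs_sum : HasSum xs (120 / 7) := by
  have := mg_hasSum 3 (by norm_num) (fun i => 6 - i) (1 / 8) (by norm_num) (by norm_num)
  norm_num [Finset.sum_range_succ] at this
  exact this

theorem xs_pos (n : ℕ) : 0 < xs n := by
  have : ((n % 3 : ℕ) : ℝ) < 3 := by exact_mod_cast Nat.mod_lt n (by norm_num)
  exact mul_pos (by simp only; linarith) (by positivity)

theorem sh (n : ℕ) : xs (n + 3) = 1 / 8 * xs n := mg_shift 3 (by norm_num) _ _ n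

theorem x0 : xs 0 = 6 := by simp [xs, mg]
theorem x1 : xs 1 = 5 := by norm_num [xs, mg]
theorem x2 : xs 2 = 4 := by norm_num [xs, mg]

theorem shk (k n : ℕ) : xs (n + 3 * k) = (1 / 8) ^ k * xs n := by
  induction k with
  | zero => simp
  | succ k ih => rw [show n + 3 * (k + 1) = n + 3 * k + 3 by ring, sh, ih]; ring

theorem anti : Antitone xs := by
  refine antitone_nat_of_succ_le fun n => ?_
  have h : (0 : ℝ) < (1 / 8) ^ (n / 3) := by positivity
  have e : ∀ r, xs (r + 3 * (n / 3)) = _ := shk (n / 3)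
  have e3 := sh 0
  obtain h0 | h0 | h0 : n = 0 + 3 * (n / 3) ∨ n = 1 + 3 * (n / 3) ∨ n = 2 + 3 * (n / 3) := by omega
  · rw [show n + 1 = 1 + 3 * (n / 3) by omega, e]; conv_rhs => rw [h0, e]
    rw [x0, x1]; linarith
  · rw [show n + 1 = 2 + 3 * (n / 3) by omega, e]; conv_rhs => rw [h0, e]
    rw [x1, x2]; linarith
  · rw [show n + 1 = (0 + 3) + 3 * (n / 3) by omega, e]; conv_rhs => rw [h0, e]
    rw [e3, x0, x2]; linarith

theorem mem (s : ℝ) : s ∈ Ach xs ↔ ∃ t ∈ Ach xs, ∃ d ∈ ({0, 4, 5, 6, 9, 10, 11, 15} : Set ℝ),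
    s = d + 1 / 8 * t := by
  have h0 := xs_sum.summable
  have h1 := (summable_nat_add_iff 1).mpr h0
  have h2 := (summable_nat_add_iff 1).mpr h1
  simp only [mem_succ h0 s, mem_succ h1, mem_succ h2]
  simp only [add_assoc, Nat.reduceAdd, sh, mem_mul, zero_add, x0, x1, x2]
  constructor
  · rintro (((⟨t, ht, h⟩ | ⟨t, ht, h⟩) | ⟨t, ht, h⟩ | ⟨t, ht, h⟩) |
      (⟨t, ht, h⟩ | ⟨t, ht, h⟩) | ⟨t, ht, h⟩ | ⟨t, ht, h⟩)
    all_goals refine ⟨t, ht, s - 1 / 8 * t, ?_, by ring⟩
    all_goals rw [← h]; ring_nf; simp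
  · rintro ⟨t, ht, d, hd, rfl⟩
    have k : ∀ s : ℝ, s = 1 / 8 * t → ∃ u ∈ Ach xs, s = 1 / 8 * u := fun s h => ⟨t, ht, h⟩
    rcases hd with rfl | rfl | rfl | rfl | rfl | rfl | rfl | rfl
    · exact Or.inl (Or.inl (Or.inl (k _ (by ring))))
    · exact Or.inl (Or.inl (Or.inr (k _ (by ring))))
    · exact Or.inl (Or.inr (Or.inl (k _ (by ring))))
    · exact Or.inr (Or.inl (Or.inl (k _ (by ring))))
    · exact Or.inl (Or.inr (Or.inr (k _ (by ring))))
    · exact Or.inr (Or.inl (Or.inr (k _ (by ring))))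
    · exact Or.inr (Or.inr (Or.inl (k _ (by ring))))
    · exact Or.inr (Or.inr (Or.inr (k _ (by ring))))

theorem bd {s : ℝ} (h : s ∈ Ach xs) : 0 ≤ s ∧ s ≤ 120 / 7 := by
  simpa [xs_sum.tsum_eq] using bounds (fun n => (xs_pos n).le) xs_sum.summable h

open scoped Pointwise in
theorem tile : Icc (0 : ℝ) 8 ⊆ Ach xs + range (fun k : ℤ => (8 : ℝ) * k) := by
  refine coind _ _ (1 / 8) 0 8 (by norm_num) (by norm_num)
    (IsClosed.add_left_of_isCompact (((Homeomorph.mulLeft₀ (8 : ℝ) (by norm_num)).isClosedEmbedding.comp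
      Int.isClosedEmbedding_coe_real).isClosed_range)
      (isCompact xs_sum.summable)) ⟨_, add_mem_add (zero_mem _) ⟨0, rfl⟩⟩
    (fun s hs => hs) fun s hs => ⟨8 * Int.fract s, ⟨by linarith [Int.fract_nonneg s],
      by linarith [Int.fract_lt_one s]⟩, ⌊s⌋, by rw [Int.fract]; ring, ?_⟩
  rintro _ ⟨e, he, _, ⟨k, rfl⟩, rfl⟩
  obtain ⟨d, j, hd, h⟩ : ∃ d j : ℤ, (d = 0 ∨ d = 4 ∨ d = 5 ∨ d = 6 ∨ d = 9 ∨ d = 10 ∨ d = 11 ∨ d = 15) ∧
      ⌊s⌋ + k = d + 8 * j := by
    generalize ⌊s⌋ + k = z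
    obtain h | h | h | h | h | h | h | h : z % 8 = 0 ∨ z % 8 = 4 ∨ z % 8 = 5 ∨ z % 8 = 6 ∨ z % 8 = 1 ∨
      z % 8 = 2 ∨ z % 8 = 3 ∨ z % 8 = 7 := by omega
    exacts [⟨0, z / 8, by simp, by omega⟩, ⟨4, z / 8, by simp, by omega⟩, ⟨5, z / 8, by simp, by omega⟩,
      ⟨6, z / 8, by simp, by omega⟩, ⟨9, z / 8 - 1, by simp, by omega⟩, ⟨10, z / 8 - 1, by simp, by omega⟩,
      ⟨11, z / 8 - 1, by simp, by omega⟩, ⟨15, z / 8 - 1, by simp, by omega⟩]
  refine ⟨d + 1 / 8 * e, (mem _).mpr ⟨e, he, d, ?_, rfl⟩, _, ⟨j, rfl⟩, ?_⟩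
  · rcases hd with rfl | rfl | rfl | rfl | rfl | rfl | rfl | rfl <;> simp
  · have : ((⌊s⌋ + k : ℤ) : ℝ) = (d + 8 * j : ℤ) := by rw [h]
    push_cast at this
    simp only
    linarith

theorem mid : Ioo (6 : ℝ) 7 ⊆ Ach xs := by
  intro s hs
  obtain ⟨e, he, _, ⟨k, rfl⟩, h⟩ := tile (show s ∈ Icc (0 : ℝ) 8 from ⟨by linarith [hs.1], by linarith [hs.2]⟩)
  simp only at h
  have h1 := bd he
  have h2 : k < 1 := by
    have : (k : ℝ) < 1 := by linarith [hs.2]
    exact_mod_cast this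
  have h3 : -2 < k := by
    have : (-2 : ℝ) < k := by linarith [hs.1]
    exact_mod_cast this
  obtain rfl | rfl : k = 0 ∨ k = -1 := by omega
  · rwa [show s = e by simp at h; linarith]
  · obtain ⟨t, ht, d, hd, rfl⟩ := (mem e).mp he
    have := bd ht
    push_cast at h
    rcases hd with rfl | rfl | rfl | rfl | rfl | rfl | rfl | rfl <;> linarith [hs.1, hs.2]

theorem reg : Ach xs ⊆ closure (interior (Ach xs)) := by
  refine coind _ _ (1 / 8) 0 (120 / 7) (by norm_num) (by norm_num) isClosed_closure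
    ⟨13 / 2, subset_closure ?_⟩ (fun s => bd) fun s hs => ?_
  · exact mem_interior_iff_mem_nhds.mpr (mem_of_superset (Ioo_mem_nhds (by norm_num) (by norm_num)) mid)
  · obtain ⟨t, ht, f, hf, h⟩ := (mem s).mp hs
    exact ⟨t, ht, f, h, aff_closure_interior _ _ f _ (by norm_num) fun u hu => (mem _).mpr ⟨u, hu, f, hf, rfl⟩⟩

theorem gap (j : ℕ) : 3 * (1 / 8) ^ j ∉ Ach xs := by
  induction j with
  | zero =>
    intro h
    obtain ⟨t, ht, d, hd, h⟩ := (mem _).mp h
    have := bd ht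
    rcases hd with rfl | rfl | rfl | rfl | rfl | rfl | rfl | rfl <;> linarith
  | succ j ih =>
    intro h
    obtain ⟨t, ht, d, hd, h⟩ := (mem _).mp h
    have := bd ht
    have h2 : (1 / 8 : ℝ) ^ j ≤ 1 := pow_le_one₀ (by norm_num) (by norm_num)
    rw [pow_succ] at h
    rcases hd with rfl | rfl | rfl | rfl | rfl | rfl | rfl | rfl
    · exact ih (by rwa [show 3 * (1 / 8 : ℝ) ^ j = t by linarith])
    all_goals linarith

theorem vol_step {y : ℕ → ℝ} (hs : Summable y) :
    volume (Ach y) ≤ 2 * volume (Ach fun n => y (n + 1)) := by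
  have : Ach y = Ach (fun n => y (n + 1)) ∪ (fun s => s + -y 0) ⁻¹' Ach (fun n => y (n + 1)) := by
    ext s
    simpa [sub_eq_add_neg] using mem_succ hs s
  rw [this, two_mul]
  exact (measure_union_le _ _).trans (by rw [measure_preimage_add_right])

theorem vol_step0 {y : ℕ → ℝ} (hs : Summable y) (h : y 0 = 0) : Ach y = Ach fun n => y (n + 1) := by
  ext s
  simpa [h] using mem_succ hs s

theorem vol_iter {y : ℕ → ℝ} (hs : Summable y) (n k : ℕ) :
    volume (Ach fun i => y (i + n)) ≤ 2 ^ k * volume (Ach fun i => y (i + (n + k))) := by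
  induction k with
  | zero => simp
  | succ k ih =>
    refine ih.trans ?_
    rw [pow_succ, mul_assoc]
    gcongr
    simpa [add_assoc, add_comm 1] using vol_step ((summable_nat_add_iff (n + k)).mpr hs)

theorem null (A : Set ℕ) (hA : A.Infinite) : volume (Ach (Aᶜ.indicator xs)) = 0 := by
  set y := Aᶜ.indicator xs with hy
  have hs : Summable y := xs_sum.summable.indicator _
  have h1 : ∀ j : ℕ, ∃ n : ℕ, 2 ^ j * volume (Ach y) ≤ 2 ^ n * volume (Ach fun i => y (i + n)) := by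
    intro j
    induction j with
    | zero => exact ⟨0, by simp⟩
    | succ j ih =>
      obtain ⟨n, hn⟩ := ih
      obtain ⟨a, ha, hna⟩ := hA.exists_gt n
      obtain ⟨k, rfl⟩ := Nat.exists_eq_add_of_le hna.le
      refine ⟨n + k + 1, ?_⟩
      have h2 := vol_iter hs n k
      rw [vol_step0 ((summable_nat_add_iff (n + k)).mpr hs) (by simp [hy, ha])] at h2
      simp only [add_assoc, add_comm 1] at h2 ⊢
      calc _ = 2 * (2 ^ j * volume (Ach y)) := by ring
        _ ≤ 2 * (2 ^ n * (2 ^ k * volume (Ach fun i => y (i + (n + (k + 1)))))) := by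
          exact mul_le_mul_right (hn.trans (mul_le_mul_right h2 _)) _
        _ = _ := by ring
  have h2 : ∀ n : ℕ, 2 ^ n * volume (Ach fun i => y (i + n)) ≤ 18 := by
    intro n
    have h3 := vol_iter hs n (2 * n)
    have h4 : (Ach fun i => y (i + (n + 2 * n))) ⊆ Icc 0 ((1 / 8) ^ n * 18) := by
      intro s h
      have h5 := bounds (fun i => indicator_nonneg (fun i _ => (xs_pos i).le) _)
        ((summable_nat_add_iff (n + 2 * n)).mpr hs) h
      refine ⟨h5.1, h5.2.trans ?_⟩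
      have h6 := (xs_sum.mul_left ((1 / 8) ^ n))
      refine le_trans (((summable_nat_add_iff (n + 2 * n)).mpr hs).tsum_le_tsum (fun i => ?_)
        h6.summable) (by rw [h6.tsum_eq]; gcongr; norm_num)
      rw [← shk, show n + 2 * n = 3 * n by ring]
      exact indicator_le_self' (fun i _ => (xs_pos i).le) _
    have h5 := measure_mono (μ := volume) h4
    rw [Real.volume_Icc, sub_zero, ENNReal.ofReal_mul (by positivity), ENNReal.ofReal_pow (by norm_num),
      ENNReal.ofReal_div_of_pos (by norm_num)] at h5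
    norm_num at h5
    calc _ ≤ 2 ^ n * (2 ^ (2 * n) * (8⁻¹ ^ n * 18 : ENNReal)) := by
          gcongr; exact h3.trans (by gcongr)
      _ = (2 * 2 ^ 2 * 8⁻¹) ^ n * 18 := by rw [pow_mul, mul_pow, mul_pow]; ring
      _ = 18 := by
        rw [show (2 * 2 ^ 2 : ENNReal) = 8 by norm_num, ENNReal.mul_inv_cancel (by norm_num) (by norm_num)]
        simp
  by_contra h0
  have h3 := ENNReal.Tendsto.mul_const (b := volume (Ach y))
    (ENNReal.tendsto_pow_atTop_nhds_top_iff.mpr (show (1 : ENNReal) < 2 by norm_num)) (Or.inl (by simp))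
  rw [ENNReal.top_mul h0] at h3
  have := le_of_tendsto' h3 fun j => (h1 j).elim fun n hn => hn.trans (h2 n)
  simp at this

theorem result : ∃ x : ℕ → ℝ, (∀ n, 0 < x n) ∧ Antitone x ∧ Summable x ∧ Cantorval (E x univ) ∧
    Minimal x ∧ {n | x n < ∑' k, x (n + 2 + k)}.Infinite := by
  have e : E xs univ = Ach xs := by rw [E_eq, indicator_univ]
  refine ⟨xs, xs_pos, anti, xs_sum.summable, ?_, fun A hA => ⟨fun φ => ?_⟩, ?_⟩
  · rw [e]
    refine ⟨⟨0, zero_mem _⟩, isCompact xs_sum.summable, Subset.antisymm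
      (closure_minimal interior_subset (isCompact xs_sum.summable).isClosed) reg,
      fun p _ => ends (fun n => (xs_pos n).le) xs_sum.summable (fun ε hε => ?_) p⟩
    have h := (tendsto_pow_atTop_nhds_zero_of_lt_one (r := (1 / 8 : ℝ)) (by norm_num)
      (by norm_num)).const_mul 3
    rw [mul_zero] at h
    obtain ⟨j, hj⟩ := (h.eventually (gt_mem_nhds hε)).exists
    exact ⟨_, by positivity, hj, gap j⟩
  · have h1 : IsTotallyDisconnected (E xs Aᶜ) := by
      intro t ht hp a ha b hb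
      by_contra hab
      have h2 := measure_mono (μ := volume) ((hp.ordConnected.uIcc_subset ha hb).trans ht)
      rw [E_eq, null A hA, Real.volume_interval] at h2
      simp at h2
      exact hab (by linarith [sub_eq_zero.mp h2])
    have : TotallyDisconnectedSpace (E xs Aᶜ) := totallyDisconnectedSpace_subtype_iff.mpr h1
    have h2 := totallyDisconnectedSpace_subtype_iff.mp φ.totallyDisconnectedSpace
    have := h2 _ (e ▸ mid) isPreconnected_Ioo (show (6.2 : ℝ) ∈ Ioo 6 7 by norm_num)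
      (show (6.3 : ℝ) ∈ Ioo 6 7 by norm_num)
    norm_num at this
  · refine infinite_of_injective_forall_mem (f := fun k => 3 * k) (fun a b h => by simpa using h)
      fun k => ?_
    have h := ((hasSum_nat_add_iff' 2).mpr xs_sum).mul_left ((1 / 8) ^ k)
    have e2 : (fun j => xs (3 * k + 2 + j)) = fun j => (1 / 8) ^ k * xs (j + 2) := by
      funext j; rw [← shk]; congr 1; ring
    show xs (3 * k) < ∑' j, xs (3 * k + 2 + j)
    rw [e2, h.tsum_eq, show 3 * k = 0 + 3 * k by ring, shk]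
    gcongr
    norm_num [Finset.sum_range_succ, x0, x1]

end Pool.Agent.Results.MP_61d686_an.Counter
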